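import Pool.Agent.R3M.Stmts
import Pool.Agent.R3M.Kit

/-!
# R3M, row ARC: arcs after one exchange at a base
-/

set_option autoImplicit false

namespace Pool.Agent.R3M.H36

open Pool.Agent.R3M

theorem arc : ArcStmt := by
  intro α _ M P r a x b hR hP hr ha hx hb hxr hba hra hrb
  unfold Arc at *
  have hbX : b ∉ (P.erase x).erase r := fun h =>
    hb (Finset.mem_of_mem_erase (Finset.mem_of_mem_erase h))
  have hpos : 1 < P.card := Finset.one_lt_card.mpr ⟨x, hx, r, hr, hxr⟩
  have hcX : (insert b ((P.erase x).erase r)).card = P.card - 1 := by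
    rw [Finset.card_insert_of_notMem hbX,
      Finset.card_erase_of_mem (Finset.mem_erase.mpr ⟨Ne.symm hxr, hr⟩),
      Finset.card_erase_of_mem hx]
    omega
  have key : ¬ M.Ind (insert x (insert b ((P.erase x).erase r))) := by
    intro h
    refine hrb (M.sub h ?_)
    intro u hu
    simp only [Finset.mem_insert, Finset.mem_erase] at hu ⊢
    by_cases hux : u = x
    · exact Or.inl hux
    · rcases hu with h | h
      · exact Or.inr (Or.inl h)
      · exact Or.inr (Or.inr ⟨h.1, hux, h.2⟩)
  constructor
  · intro h
    have hX : M.Ind (insert b ((P.erase x).erase r)) := by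
      refine M.sub h ?_
      intro u hu
      simp only [Finset.mem_insert, Finset.mem_erase] at hu ⊢
      tauto
    have hc : (insert a (P.erase r)).card = P.card := Kit.card_exch ha hr
    obtain ⟨u, hu1, hu2, hu3⟩ := M.aug hX hra (by omega)
    have hua : u = a ∨ u = x := by
      simp only [Finset.mem_insert, Finset.mem_erase] at hu1 hu2
      by_contra hcon
      push Not at hcon
      rcases hu1 with h | h
      · exact hcon.1 h
      · exact hu2 (Or.inr ⟨h.1, hcon.2, h.2⟩)
    rcases hua with rfl | rfl
    · refine M.sub hu3 ?_
      intro v hv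
      simp only [Finset.mem_insert, Finset.mem_erase] at hv ⊢
      tauto
    · exact absurd hu3 key
  · intro h
    have hX : M.Ind (insert b ((P.erase x).erase r)) := by
      refine M.sub h ?_
      intro u hu
      simp only [Finset.mem_insert, Finset.mem_erase] at hu ⊢
      tauto
    obtain ⟨u, hu1, hu2, hu3⟩ := M.aug hX hP (by omega)
    have hua : u = r ∨ u = x := by
      simp only [Finset.mem_insert, Finset.mem_erase] at hu2
      by_contra hcon
      push Not at hcon
      exact hu2 (Or.inr ⟨hcon.1, hcon.2, hu1⟩)
    rcases hua with rfl | rfl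
    · refine M.sub hu3 ?_
      intro v hv
      simp only [Finset.mem_insert, Finset.mem_erase] at hv ⊢
      tauto
    · exact absurd hu3 key

end Pool.Agent.R3M.H36
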