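import Pool.Agent.R3M.Stmts

/-!
# R3M, row CYC: a chordless cycle inside a closed class
-/

set_option autoImplicit false

namespace Pool.Agent.R3M.H36

open Pool.Agent.R3M

/-- Periodic walk. -/
def PW {α : Type} (R : α → α → Prop) (m : ℕ) (H : ℕ → α) : Prop :=
  (∀ s, R (H s) (H (s + 1))) ∧ ∀ s, H (s + m) = H s

theorem pw_close {α : Type} (R : α → α → Prop) (u : ℕ → α) (hu : ∀ s, R (u s) (u (s + 1)))
    (i j : ℕ) (hij : j ≤ i) (hR : R (u i) (u j)) : ∃ H, PW R (i - j + 1) H := by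
  refine ⟨fun s => u (j + s % (i - j + 1)), ?_, ?_⟩
  · intro s
    have hlt : s % (i - j + 1) < i - j + 1 := Nat.mod_lt _ (by omega)
    by_cases h : s % (i - j + 1) + 1 < i - j + 1
    · have e : (s + 1) % (i - j + 1) = s % (i - j + 1) + 1 := by
        rw [Nat.add_mod, Nat.mod_eq_of_lt (show 1 < i - j + 1 by omega), Nat.mod_eq_of_lt h]
      simp only [e]
      exact hu _
    · have e0 : s % (i - j + 1) = i - j := by omega
      have e : (s + 1) % (i - j + 1) = 0 := by
        rcases Nat.eq_zero_or_pos (i - j) with h0 | h0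
        · rw [h0]; exact Nat.mod_one _
        · rw [Nat.add_mod, Nat.mod_eq_of_lt (show 1 < i - j + 1 by omega), e0, Nat.mod_self]
      simp only [e, e0]
      rw [show j + (i - j) = i by omega, Nat.add_zero]
      exact hR
  · intro s
    simp only [Nat.add_mod_right]

theorem cyc : CycStmt := by
  intro α _ M N P S X hX hXP hout hno
  classical
  -- the relation
  let R : α → α → Prop := fun u v => u ∈ X ∧ v ∈ X ∧ ∃ e, e ∈ S ∧ e ∉ P ∧ Arc M P u e ∧ Arc N P v e
  have hnext : ∀ u, u ∈ X → ∃ v, v ∈ X ∧ R u v := by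
    intro u hu
    obtain ⟨e, heS, heP, heM, v, hv, heN⟩ := hout u hu
    exact ⟨v, hv, hu, hv, e, heS, heP, heM, heN⟩
  obtain ⟨u0, hu0⟩ := hX
  -- an infinite walk
  have hstep : ∀ x : {x // x ∈ X}, ∃ y : {y // y ∈ X}, R x.1 y.1 := by
    rintro ⟨x, hx⟩
    obtain ⟨v, hv, hR⟩ := hnext x hx
    exact ⟨⟨v, hv⟩, hR⟩
  choose F hF using hstep
  let w : ℕ → {x // x ∈ X} := fun s => F^[s] ⟨u0, hu0⟩
  have hw : ∀ s, R (w s).1 (w (s + 1)).1 := by
    intro s
    have : w (s + 1) = F (w s) := Function.iterate_succ_apply' F s _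
    rw [this]
    exact hF _
  -- a periodic walk
  have hex : ∃ m, 1 ≤ m ∧ ∃ H, PW R m H := by
    obtain ⟨a, b, hab, heq⟩ := Finite.exists_ne_map_eq_of_infinite w
    have main : ∀ a b : ℕ, a < b → w a = w b → ∃ m, 1 ≤ m ∧ ∃ H, PW R m H := by
      intro a b hlt heq
      refine ⟨b - 1 - a + 1, by omega, pw_close R (fun s => (w s).1) hw (b - 1) a (by omega) ?_⟩
      have h := hw (b - 1)
      rw [show b - 1 + 1 = b by omega, ← heq] at h
      exact h
    rcases Nat.lt_or_gt_of_ne hab with h | h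
    · exact main a b h heq
    · exact main b a h heq.symm
  -- a shortest one
  obtain ⟨m, ⟨hm1, H, hH1, hH2⟩, hmin⟩ : ∃ m, (1 ≤ m ∧ ∃ H, PW R m H) ∧
      ∀ m', (1 ≤ m' ∧ ∃ H, PW R m' H) → m ≤ m' :=
    ⟨Nat.find hex, Nat.find_spec hex, fun m' hm' => Nat.find_min' hex hm'⟩
  have hchord : ∀ i j, i < m → j < m → i ≠ j → ¬ R (H i) (H (j + 1)) := by
    intro i j hi hj hij hR
    rcases Nat.lt_or_gt_of_ne hij with h | h
    · -- i < j
      have hR' : R (H (i + m)) (H (j + 1)) := by rw [hH2]; exact hR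
      have := hmin _ ⟨by omega, pw_close R H hH1 (i + m) (j + 1) (by omega) hR'⟩
      omega
    · have := hmin _ ⟨by omega, pw_close R H hH1 i (j + 1) (by omega) hR⟩
      omega
  have he : ∀ s, ∃ e, e ∈ S ∧ e ∉ P ∧ Arc M P (H s) e ∧ Arc N P (H (s + 1)) e :=
    fun s => (hH1 s).2.2
  choose e heS heP heM heN using he
  have hHX : ∀ s, H s ∈ X := fun s => (hH1 s).1
  have hcM : ∀ i j, i < m → j < m → i ≠ j → ¬ Arc M P (H i) (e j) := by
    intro i j hi hj hij hA
    exact hchord i j hi hj hij ⟨hHX _, hHX _, e j, heS j, heP j, hA, heN j⟩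
  have hcN : ∀ i j, i < m → j < m → i ≠ j → ¬ Arc N P (H (i + 1)) (e j) := by
    intro i j hi hj hij hA
    exact hchord j i hj hi (Ne.symm hij) ⟨hHX _, hHX _, e j, heS j, heP j, heM j, hA⟩
  refine ⟨m, H, e, ?_, fun i _ => hHX i⟩
  refine
    { two := ?_
      hP := fun i _ => (hXP _ (hHX i)).1
      hS := fun i _ => (hXP _ (hHX i)).2
      eS := fun i _ => heS i
      eP := fun i _ => heP i
      wrap := ?_
      hinj := ?_
      einj := ?_
      aM := fun i _ => heM i
      aN := fun i _ => heN i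
      cM := hcM
      cN := hcN }
  · by_contra hlt
    have hm : m = 1 := by omega
    subst hm
    refine hno (H 0) (hHX 0) (e 0) (heS 0) (heP 0) ⟨heM 0, ?_⟩
    have := heN 0
    rw [Nat.zero_add] at this
    rw [show H 1 = H 0 from hH2 0] at this
    exact this
  · have := hH2 0
    rw [Nat.zero_add] at this
    exact this
  · intro i j hi hj h
    by_contra hne
    refine hcM i j hi hj hne ?_
    rw [h]
    exact heM j
  · intro i j hi hj h
    by_contra hne
    refine hcM i j hi hj hne ?_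
    rw [← h]
    exact heM i

end Pool.Agent.R3M.H36
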