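import Pool.Agent.R3M.Stmts
import Pool.Agent.R3M.Kit

/-!
# R3M, row HOR: horizontal edges
-/

set_option autoImplicit false

namespace Pool.Agent.R3M.H36

open Pool.Agent.R3M

section
variable {α : Type} [DecidableEq α]

theorem level_ins {S K : Finset α} {h : α} (hS : h ∉ S) : (insert h K ∩ S).card = (K ∩ S).card := by
  rw [Finset.insert_inter_of_notMem hS]

/-- (H1): `K + e` is a common independent set. -/
theorem hor1 {M N : Mat α} {n : ℕ} {S : Finset α} {φ : Finset α → Finset α → ℤ}
    {θ : Finset α → ℤ} {k : ℕ} {K : Finset α} {h g e : α}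
    (hC : Clo M N n φ) (hV : Vert M N n S φ k θ)
    (hK : h ∉ K) (gK : g ∉ K) (hS : h ∉ S) (gS : g ∉ S)
    (h1 : CI M N n (insert h K)) (h2 : CI M N n (insert g K)) (hk : (K ∩ S).card = k)
    (heS : e ∈ S) (heK : e ∉ K) (hM : M.Ind (insert e K)) (hN : N.Ind (insert e K)) :
    φ (insert h K) (insert g K) = θ (insert g K) - θ (insert h K) := by
  have heh : e ≠ h := fun h => hS (h ▸ heS)
  have heg : e ≠ g := fun h => gS (h ▸ heS)
  have eq1 : insert e ((insert h K).erase h) = insert e K := by rw [Finset.erase_insert hK]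
  have eq2 : insert e ((insert g K).erase g) = insert e K := by rw [Finset.erase_insert gK]
  have up1 : Up M N S (insert h K) e h := by
    refine ⟨heS, ?_, Finset.mem_insert_self _ _, hS, ?_, ?_⟩
    · rw [Finset.mem_insert]; tauto
    · rw [eq1]; exact hM
    · rw [eq1]; exact hN
  have up2 : Up M N S (insert g K) e g := by
    refine ⟨heS, ?_, Finset.mem_insert_self _ _, gS, ?_, ?_⟩
    · rw [Finset.mem_insert]; tauto
    · rw [eq2]; exact hM
    · rw [eq2]; exact hN
  have v1 := hV.2 _ e h h1 (by rw [level_ins hS]; exact hk) up1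
  have v2 := hV.2 _ e g h2 (by rw [level_ins gS]; exact hk) up2
  rw [eq1] at v1
  rw [eq2] at v2
  have c3 : CI M N n (insert e K) := by
    have := Kit.up_ci h1 up1
    rw [eq1] at this
    exact this
  have n13 : Near (insert h K) (insert e K) := by
    refine Kit.near_of_sub h e (fun x hx hn => ?_) (fun x hx hn => ?_)
    · rcases Finset.mem_insert.mp hx with hx | hx
      · exact hx
      · exact absurd (Finset.mem_insert_of_mem hx) hn
    · rcases Finset.mem_insert.mp hx with hx | hx
      · exact hx
      · exact absurd (Finset.mem_insert_of_mem hx) hn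
  have n23 : Near (insert g K) (insert e K) := by
    refine Kit.near_of_sub g e (fun x hx hn => ?_) (fun x hx hn => ?_)
    · rcases Finset.mem_insert.mp hx with hx | hx
      · exact hx
      · exact absurd (Finset.mem_insert_of_mem hx) hn
    · rcases Finset.mem_insert.mp hx with hx | hx
      · exact hx
      · exact absurd (Finset.mem_insert_of_mem hx) hn
  have n12 : Near (insert h K) (insert g K) := by
    refine Kit.near_of_sub h g (fun x hx hn => ?_) (fun x hx hn => ?_)
    · rcases Finset.mem_insert.mp hx with hx | hx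
      · exact hx
      · exact absurd (Finset.mem_insert_of_mem hx) hn
    · rcases Finset.mem_insert.mp hx with hx | hx
      · exact hx
      · exact absurd (Finset.mem_insert_of_mem hx) hn
  have t := Kit.clo_tri hC h1 h2 c3 n12 n23 n13
  omega

/-- (H2): `K + h + e` and `K + g + e` are `M`-independent, `K + e` is `N`-dependent. -/
theorem hor2 (hLci : LciStmt) (hLsp : LspStmt)
    {M N : Mat α} {n : ℕ} {S : Finset α} {φ : Finset α → Finset α → ℤ}
    {θ : Finset α → ℤ} {k : ℕ} {K : Finset α} {h g e : α}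
    (hSet : Setup M N n S) (hC : Clo M N n φ) (hV : Vert M N n S φ k θ)
    (hK : h ∉ K) (gK : g ∉ K) (hg : h ≠ g) (hS : h ∉ S) (gS : g ∉ S)
    (h1 : CI M N n (insert h K)) (h2 : CI M N n (insert g K)) (hk : (K ∩ S).card = k)
    (heS : e ∈ S) (heK : e ∉ K) (hMh : M.Ind (insert e (insert h K)))
    (hMg : M.Ind (insert e (insert g K))) (hN : ¬ N.Ind (insert e K)) :
    φ (insert h K) (insert g K) = θ (insert g K) - θ (insert h K) := by
  have heh : e ≠ h := fun h => hS (h ▸ heS)
  have heg : e ≠ g := fun h => gS (h ▸ heS)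
  have hNK : N.Ind K := N.sub h1.2.1 (Finset.subset_insert _ _)
  obtain ⟨f, hfK, hfS, hf⟩ := hLci α N K S e hNK hSet.cS.2.1 heS heK hN
  have hfh : f ≠ h := fun h' => hK (h' ▸ hfK)
  have hfg : f ≠ g := fun h' => gK (h' ▸ hfK)
  have nh : N.Ind (insert h (insert e (K.erase f))) :=
    hLsp α N K e f h heK hfK hK hN hf h1.2.1
  have ng : N.Ind (insert g (insert e (K.erase f))) :=
    hLsp α N K e f g heK hfK gK hN hf h2.2.1
  have eqh : insert e ((insert h K).erase f) = insert h (insert e (K.erase f)) := by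
    ext u
    simp only [Finset.mem_insert, Finset.mem_erase]
    constructor
    · rintro (hu | ⟨hu, rfl | hu2⟩)
      · exact Or.inr (Or.inl hu)
      · exact Or.inl rfl
      · exact Or.inr (Or.inr ⟨hu, hu2⟩)
    · rintro (hu | hu | ⟨hu, hu2⟩)
      · exact Or.inr ⟨fun hc => hfh (hc.symm.trans hu), Or.inl hu⟩
      · exact Or.inl hu
      · exact Or.inr ⟨hu, Or.inr hu2⟩
  have eqg : insert e ((insert g K).erase f) = insert g (insert e (K.erase f)) := by
    ext u
    simp only [Finset.mem_insert, Finset.mem_erase]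
    constructor
    · rintro (hu | ⟨hu, rfl | hu2⟩)
      · exact Or.inr (Or.inl hu)
      · exact Or.inl rfl
      · exact Or.inr (Or.inr ⟨hu, hu2⟩)
    · rintro (hu | hu | ⟨hu, hu2⟩)
      · exact Or.inr ⟨fun hc => hfg (hc.symm.trans hu), Or.inl hu⟩
      · exact Or.inl hu
      · exact Or.inr ⟨hu, Or.inr hu2⟩
  have up1 : Up M N S (insert h K) e f := by
    refine ⟨heS, ?_, Finset.mem_insert_of_mem hfK, hfS, ?_, ?_⟩
    · rw [Finset.mem_insert]; tauto
    · exact M.sub hMh (Finset.insert_subset_insert _ (Finset.erase_subset _ _))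
    · rw [eqh]; exact nh
  have up2 : Up M N S (insert g K) e f := by
    refine ⟨heS, ?_, Finset.mem_insert_of_mem hfK, hfS, ?_, ?_⟩
    · rw [Finset.mem_insert]; tauto
    · exact M.sub hMg (Finset.insert_subset_insert _ (Finset.erase_subset _ _))
    · rw [eqg]; exact ng
  have l1 : (insert h K ∩ S).card = k := by rw [level_ins hS]; exact hk
  have l2 : (insert g K ∩ S).card = k := by rw [level_ins gS]; exact hk
  have v1 := hV.2 _ e f h1 l1 up1
  have v2 := hV.2 _ e f h2 l2 up2
  have c1 := Kit.up_ci h1 up1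
  have c2 := Kit.up_ci h2 up2
  have k1 := Kit.up_level up1
  have k2 := Kit.up_level up2
  have nAB : Near (insert e ((insert h K).erase f)) (insert e ((insert g K).erase f)) := by
    rw [eqh, eqg]
    refine Kit.near_of_sub h g (fun x hx hn => ?_) (fun x hx hn => ?_)
    · rcases Finset.mem_insert.mp hx with hx | hx
      · exact hx
      · exact absurd (Finset.mem_insert_of_mem hx) hn
    · rcases Finset.mem_insert.mp hx with hx | hx
      · exact hx
      · exact absurd (Finset.mem_insert_of_mem hx) hn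
  have n12 : Near (insert h K) (insert g K) := by
    refine Kit.near_of_sub h g (fun x hx hn => ?_) (fun x hx hn => ?_)
    · rcases Finset.mem_insert.mp hx with hx | hx
      · exact hx
      · exact absurd (Finset.mem_insert_of_mem hx) hn
    · rcases Finset.mem_insert.mp hx with hx | hx
      · exact hx
      · exact absurd (Finset.mem_insert_of_mem hx) hn
  have alw : Alw S (insert e ((insert h K).erase f)) (insert e ((insert g K).erase f)) := by
    left
    refine ⟨h, Or.inl ⟨?_, ?_⟩, hS⟩
    · rw [eqh]; exact Finset.mem_insert_self _ _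
    · rw [eqg]
      intro hc
      rcases Finset.mem_insert.mp hc with hc | hc
      · exact hg hc
      · rcases Finset.mem_insert.mp hc with hc | hc
        · exact heh hc.symm
        · exact hK (Finset.mem_of_mem_erase hc)
  have p := hV.1 _ _ c1 c2 nAB (by omega) (by omega) alw
  have q := Kit.clo_sq hC h1 c1 c2 h2 (Kit.near_exch _ e f) nAB n12 (Kit.near_exch _ e f)
  omega

theorem hor_ind (M N : Mat α) {n : ℕ} {S K : Finset α} {h g : α} (hSet : Setup M N n S)
    (hK : h ∉ K) (hg : h ≠ g) (hS : h ∉ S)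
    (h1 : CI M N n (insert h K)) (h2 : CI M N n (insert g K))
    (hno : ∀ e ∈ S, e ∉ K → ¬ (M.Ind (insert e (insert h K)) ∧ M.Ind (insert e (insert g K)))) :
    M.Ind (insert h (insert g K)) := by
  obtain ⟨e, heS, heI, he⟩ := M.aug h1.1 hSet.cS.1 (by rw [h1.2.2, hSet.cS.2.2]; omega)
  have heK : e ∉ K := fun h => heI (Finset.mem_insert_of_mem h)
  have hng : ¬ M.Ind (insert e (insert g K)) := fun h' => hno e heS heK ⟨he, h'⟩
  obtain ⟨u, hu1, hu2, hu3⟩ := M.aug h2.1 he (by
    rw [h2.2.2, Finset.card_insert_of_notMem heI, h1.2.2]; omega)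
  rcases Finset.mem_insert.mp hu1 with rfl | hu1
  · exact absurd hu3 hng
  · rcases Finset.mem_insert.mp hu1 with rfl | hu1
    · exact hu3
    · exact absurd (Finset.mem_insert_of_mem hu1) hu2

end

theorem hor (hLci : LciStmt) (hLsp : LspStmt) : HorStmt := by
  intro α _ M N n S φ θ k K h g hSet hC hV hK gK hg hS gS h1 h2 hk
  by_cases hgoal : φ (insert h K) (insert g K) = θ (insert g K) - θ (insert h K)
  · exact Or.inl hgoal
  · right
    -- not (H1)
    have no1 : ∀ e ∈ S, e ∉ K → ¬ (M.Ind (insert e K) ∧ N.Ind (insert e K)) :=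
      fun e heS heK hc => hgoal (hor1 hC hV hK gK hS gS h1 h2 hk heS heK hc.1 hc.2)
    have subh : ∀ (e : α) (Q : Mat α), Q.Ind (insert e (insert h K)) → Q.Ind (insert e K) :=
      fun e Q hQ => Q.sub hQ (Finset.insert_subset_insert _ (Finset.subset_insert _ _))
    have subg : ∀ (e : α) (Q : Mat α), Q.Ind (insert e (insert g K)) → Q.Ind (insert e K) :=
      fun e Q hQ => Q.sub hQ (Finset.insert_subset_insert _ (Finset.subset_insert _ _))
    have no2 : ∀ e ∈ S, e ∉ K →
        ¬ (M.Ind (insert e (insert h K)) ∧ M.Ind (insert e (insert g K))) := by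
      intro e heS heK hc
      exact hgoal (hor2 hLci hLsp hSet hC hV hK gK hg hS gS h1 h2 hk heS heK hc.1 hc.2
        (fun hN => no1 e heS heK ⟨subh e M hc.1, hN⟩))
    have no3 : ∀ e ∈ S, e ∉ K →
        ¬ (N.Ind (insert e (insert h K)) ∧ N.Ind (insert e (insert g K))) := by
      intro e heS heK hc
      exact hgoal (hor2 hLci hLsp (Kit.setup_swap hSet) (Kit.clo_swap hC) (Kit.vert_swap hV)
        hK gK hg hS gS (Kit.ci_swap h1) (Kit.ci_swap h2) hk heS heK hc.1 hc.2
        (fun hM => no1 e heS heK ⟨hM, subh e N hc.1⟩))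
    refine ⟨⟨hor_ind M N hSet hK hg hS h1 h2 no2,
      hor_ind N M (Kit.setup_swap hSet) hK hg hS (Kit.ci_swap h1) (Kit.ci_swap h2) no3, ?_⟩, ?_⟩
    · rw [Finset.card_insert_of_notMem ?_, h2.2.2]
      intro hc
      rcases Finset.mem_insert.mp hc with hc | hc
      · exact hg hc
      · exact hK hc
    · intro e heS heK
      refine ⟨?_, no2 e heS heK, no3 e heS heK⟩
      rintro ⟨hM, hN⟩
      refine no1 e heS heK ⟨?_, ?_⟩
      · rcases hM with hM | hM
        · exact subh e M hM
        · exact subg e M hM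
      · rcases hN with hN | hN
        · exact subh e N hN
        · exact subg e N hN

end Pool.Agent.R3M.H36
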