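import Pool.Agent.R3M.Stmts
import Pool.Agent.R3M.Kit

/-!
# R3M, row TRI: triangular exchange at a base
-/

set_option autoImplicit false

namespace Pool.Agent.R3M.H36

open Pool.Agent.R3M

theorem tri (hArc : ArcStmt) : TriStmt := by
  intro α _ M P L
  induction L generalizing P with
  | nil =>
    intro _ hP _ _ _ _ _ _
    simpa using hP
  | cons p L ih =>
    intro hR hP h1 h2 hn1 hn2 hA hT
    have hp1 : p.1 ∉ P := h1 p (List.mem_cons_self)
    have hp2 : p.2 ∈ P := h2 p (List.mem_cons_self)
    have hAp : Arc M P p.2 p.1 := hA p (List.mem_cons_self)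
    rw [List.map_cons, List.nodup_cons] at hn1 hn2
    rw [List.pairwise_cons] at hT
    have hne1 : ∀ q ∈ L, q.1 ≠ p.1 := fun q hq h =>
      hn1.1 (h ▸ List.mem_map_of_mem (f := Prod.fst) hq)
    have hne2 : ∀ q ∈ L, q.2 ≠ p.2 := fun q hq h =>
      hn2.1 (h ▸ List.mem_map_of_mem (f := Prod.snd) hq)
    have hc : (insert p.1 (P.erase p.2)).card = P.card := Kit.card_exch hp1 hp2
    have hres := ih (insert p.1 (P.erase p.2)) (by rw [hc]; exact hR) hAp
      (by
        intro q hq h
        rcases Kit.mem_exch.mp h with h | h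
        · exact hne1 q hq h
        · exact h1 q (List.mem_cons_of_mem _ hq) h.2)
      (fun q hq => Kit.mem_exch.mpr (Or.inr ⟨hne2 q hq, h2 q (List.mem_cons_of_mem _ hq)⟩))
      hn1.2 hn2.2
      (fun q hq => (hArc α M P p.2 p.1 q.2 q.1 hR hP hp2 hp1
        (h2 q (List.mem_cons_of_mem _ hq)) (h1 q (List.mem_cons_of_mem _ hq))
        (hne2 q hq) (hne1 q hq) hAp (hT.1 q hq)).mp (hA q (List.mem_cons_of_mem _ hq)))
      (List.Pairwise.imp_of_mem (fun {q q'} hq hq' h => fun h' =>
        h ((hArc α M P p.2 p.1 q.2 q'.1 hR hP hp2 hp1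
          (h2 q (List.mem_cons_of_mem _ hq)) (h1 q' (List.mem_cons_of_mem _ hq'))
          (hne2 q hq) (hne1 q' hq') hAp (hT.1 q' hq')).mpr h')) hT.2)
    have heq : (P \ ((p :: L).map Prod.snd).toFinset) ∪ ((p :: L).map Prod.fst).toFinset =
        ((insert p.1 (P.erase p.2)) \ (L.map Prod.snd).toFinset) ∪
          (L.map Prod.fst).toFinset := by
      have hR' : ∀ q ∈ L, q.2 ≠ p.1 := fun q hq h =>
        hp1 (h ▸ h2 q (List.mem_cons_of_mem _ hq))
      ext u
      simp only [List.map_cons, List.toFinset_cons, Finset.mem_union, Finset.mem_sdiff,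
        Finset.mem_insert, Finset.mem_erase, List.mem_toFinset, List.mem_map]
      constructor
      · rintro (⟨hu, hn⟩ | hu | hu)
        · push Not at hn
          left
          refine ⟨Or.inr ⟨hn.1, hu⟩, ?_⟩
          rintro ⟨q, hq, hqu⟩
          exact hn.2 q hq hqu
        · left
          refine ⟨Or.inl hu, ?_⟩
          rintro ⟨q, hq, hqu⟩
          exact hR' q hq (hqu.trans hu)
        · exact Or.inr hu
      · rintro (⟨hu | hu, hn⟩ | hu)
        · exact Or.inr (Or.inl hu)
        · left
          refine ⟨hu.2, ?_⟩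
          rintro (h | h)
          · exact hu.1 h
          · exact hn h
        · exact Or.inr (Or.inr hu)
    rw [heq]
    exact hres

end Pool.Agent.R3M.H36
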